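import Pool.Agent.J4H43.MW.Stm

/-!
# Project MW (helper43): (TD), the leading exponent of `z`
-/

set_option autoImplicit false

namespace Pool.Agent.J4H49.MW

open Polynomial Pool.Agent.Helper392_GT Pool.Agent.J4H43.FR Pool.Agent.J4H43.SW Pool.Agent.J4H43.MW

universe u

attribute [local instance 100] LieRing.ofAssociativeRing

variable {k : Type u} [Field k]

theorem rs_vm_zero (F : (BB k)[X]) : rs (vm k 0) F = C (kap F) := by
  have h : vm k 0 = gy k := by
    rw [vm, pow_zero]; rfl
  rw [h, rs, subst_y, yh_apply]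

theorem rs_vm_succ (a : ℕ) (F : (BB k)[X]) :
    rs (vm k (a + 1)) F = X * rs (vm k a) F - rs (vm k a) (X * F) := by
  rw [vm_succ, rs, LieHom.map_lie, subst_x, Ring.lie_def, LinearMap.sub_apply,
    Module.End.mul_apply, Module.End.mul_apply, xh_apply, xh_apply]

/-- the leading coefficient of the operators -/
theorem rs_vm_coeff (a : ℕ) : ∀ F : (BB k)[X], (rs (vm k a) F).coeff a = kap F ∧
    ∀ i, a < i → (rs (vm k a) F).coeff i = 0 := by
  induction a with
  | zero =>
    intro F
    rw [rs_vm_zero]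
    refine ⟨coeff_C_zero, fun i hi => ?_⟩
    rw [coeff_C, if_neg (by omega)]
  | succ a ih =>
    intro F
    rw [rs_vm_succ]
    refine ⟨?_, fun i hi => ?_⟩
    · rw [coeff_sub, coeff_X_mul, (ih F).1, (ih (X * F)).2 (a + 1) (by omega), sub_zero]
    · obtain ⟨i, rfl⟩ : ∃ i', i = i' + 1 := ⟨i - 1, by omega⟩
      rw [coeff_sub, coeff_X_mul, (ih F).2 i (by omega), (ih (X * F)).2 (i + 1) (by omega),
        sub_zero]

theorem lq_kap (F : (BB k)[X]) (a : ℕ) : lq (kap F) a = F.coeff a := by
  induction F using Polynomial.induction_on' with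
  | add p q hp hq => rw [map_add, map_add, Finsupp.add_apply, hp, hq, coeff_add]
  | monomial n c =>
    classical
    rw [kap_monomial, lq_ι_mul, Finsupp.single_apply, coeff_monomial]

theorem kap_inj {F : (BB k)[X]} (h : kap F = 0) : F = 0 := by
  ext a
  rw [← lq_kap, h, map_zero, Finsupp.zero_apply, coeff_zero]

theorem cq_hc_kap (j : ℕ) (F : (BB k)[X]) : hc (j + 1) (kap F) = kap (cq (hc j) F) := by
  induction F using Polynomial.induction_on' with
  | add p q hp hq => simp only [map_add, hp, hq]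
  | monomial n c => rw [kap_monomial, cq_monomial, kap_monomial, hc_ι_mul]

/-- the length goes up by one -/
theorem cq_rs (a : ℕ) : ∀ F : (BB k)[X], cq (hc 0) (rs (vm k a) F) = 0 ∧
    ∀ j, cq (hc (j + 1)) (rs (vm k a) F) = rs (vm k a) (cq (hc j) F) := by
  induction a with
  | zero =>
    intro F
    rw [rs_vm_zero]
    refine ⟨?_, fun j => ?_⟩
    · rw [cq_C, hc_zero_kap, C_0]
    · rw [cq_C, cq_hc_kap, rs_vm_zero]
  | succ a ih =>
    intro F
    rw [rs_vm_succ]
    refine ⟨?_, fun j => ?_⟩
    · rw [map_sub, cq_X, (ih F).1, (ih (X * F)).1, mul_zero, sub_zero]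
    · rw [map_sub, cq_X, (ih F).2, (ih (X * F)).2, cq_X, rs_vm_succ]

theorem Eh_ι (a : ℕ) : Eh k (ee k a) = rs (vm k a) := by
  rw [Eh, FreeAlgebra.lift_ι_apply]

theorem cq_Eh (q : BB k) : ∀ j, cq (hc j) (Eh k q 1) = Eh k (hc j q) 1 := by
  refine left_ind (fun q => ∀ j, cq (hc j) (Eh k q 1) = Eh k (hc j q) 1) ?_ ?_ ?_ ?_ q
  · intro j
    rw [map_one (Eh k), Module.End.one_apply, hc_one, ← C_1, cq_C, hc_one]
    split_ifs with h
    · rw [map_one (Eh k), Module.End.one_apply]
    · rw [map_zero (Eh k), LinearMap.zero_apply, C_0]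
  · intro a b ha hb j
    rw [map_add (Eh k), LinearMap.add_apply, map_add, ha, hb, map_add (hc j), map_add (Eh k),
      LinearMap.add_apply]
  · intro c a ha j
    rw [map_smul (Eh k), LinearMap.smul_apply, map_smul, ha, map_smul (hc j), map_smul (Eh k),
      LinearMap.smul_apply]
  · intro y a ha j
    rw [map_mul (Eh k), Module.End.mul_apply]
    have hy : Eh k (FreeAlgebra.ι k y) = rs (vm k y) := Eh_ι y
    rw [hy]
    cases j with
    | zero => rw [(cq_rs y _).1, hc_zero_ι_mul, map_zero (Eh k), LinearMap.zero_apply]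
    | succ j =>
      rw [(cq_rs y _).2, ha, hc_ι_mul, map_mul (Eh k), Module.End.mul_apply, hy]

/-- the coefficients in terms of the quotients by the letters -/
theorem Eh_sum {q : BB k} (h0 : eps q = 0) :
    Eh k q 1 = (lq q).sum fun y c => rs (vm k y) (Eh k c 1) := by
  conv_lhs => rw [decomp q, h0, map_zero, zero_add]
  rw [Finsupp.sum, Finsupp.sum, map_sum (Eh k), LinearMap.sum_apply]
  refine Finset.sum_congr rfl fun y _ => ?_
  rw [map_mul (Eh k), Module.End.mul_apply]
  rw [show Eh k (FreeAlgebra.ι k y) = rs (vm k y) from Eh_ι y]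

theorem lead {q : BB k} (h0 : eps q = 0) {A : ℕ} (hA : ∀ a, A < a → lq q a = 0) :
    (Eh k q 1).coeff A = kap (Eh k (lq q A) 1) := by
  classical
  rw [Eh_sum h0, Finsupp.sum, finsetSum_coeff]
  rw [Finset.sum_eq_single A]
  · exact (rs_vm_coeff A _).1
  · intro y _ hy
    rcases lt_or_gt_of_ne hy with h | h
    · exact (rs_vm_coeff y _).2 A h
    · rw [hA y h, map_zero (Eh k), LinearMap.zero_apply, map_zero, coeff_zero]
  · intro h
    rw [Finsupp.notMem_support_iff] at h
    rw [h, map_zero (Eh k), LinearMap.zero_apply, map_zero, coeff_zero]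

theorem Hm_lq {m : ℕ} {q : BB k} (hq : Hm (m + 1) q) (y : ℕ) : Hm m (lq q y) := by
  intro n
  rw [← lq_hc, hq (n + 1)]
  by_cases hn : n = m
  · rw [if_pos hn, if_pos (by omega)]
  · rw [if_neg hn, if_neg (by omega), map_zero, Finsupp.zero_apply]

theorem Eh_ne : ∀ (m : ℕ) (q : BB k), Hm m q → q ≠ 0 → Eh k q 1 ≠ 0 := by
  intro m
  induction m with
  | zero =>
    intro q hq hq0
    have h1 : q = algebraMap k (BB k) (eps q) := by
      rw [← hc_zero_eq, hq.self]
    have h2 : eps q ≠ 0 := by
      intro h0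
      rw [h0, map_zero] at h1
      exact hq0 h1
    rw [h1, AlgHom.commutes (Eh k), Module.algebraMap_end_apply]
    exact smul_ne_zero h2 one_ne_zero
  | succ m ih =>
    intro q hq hq0
    have h0 : eps q = 0 := hq.eps_zero (by omega)
    have hs : (lq q).support.Nonempty := by
      rw [Finset.nonempty_iff_ne_empty]
      intro he
      apply hq0
      refine eq_zero_of_lq h0 fun y => ?_
      have : y ∉ (lq q).support := by rw [he]; exact Finset.notMem_empty y
      exact Finsupp.notMem_support_iff.1 this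
    set A := (lq q).support.max' hs with hAdef
    have hA : ∀ a, A < a → lq q a = 0 := by
      intro a ha
      by_contra hne
      have := (lq q).support.le_max' a (Finsupp.mem_support_iff.2 hne)
      omega
    have hA0 : lq q A ≠ 0 := Finsupp.mem_support_iff.1 ((lq q).support.max'_mem hs)
    intro he
    have h1 := lead h0 hA
    rw [he, coeff_zero] at h1
    exact ih (lq q A) (Hm_lq hq A) hA0 (kap_inj h1.symm)

/-- **(TD)** -/
theorem t_TD : S_TD := by
  intro k _ m q hq hq0
  refine ⟨fun j a hj => ?_, Eh_ne m q hq hq0, fun A hA hA0 => ?_⟩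
  · have h1 : (cq (hc j) (Eh k q 1)).coeff a = (Eh k (hc j q) 1).coeff a := by
      rw [cq_Eh]
    rw [cq_coeff, hq.ne hj, map_zero (Eh k), LinearMap.zero_apply, coeff_zero] at h1
    exact h1
  · cases m with
    | zero =>
      exfalso
      apply hA0
      have h1 : q = algebraMap k (BB k) (eps q) := by
        rw [← hc_zero_eq, hq.self]
      rw [h1, Algebra.algebraMap_eq_smul_one, map_smul, lq_one, smul_zero, Finsupp.zero_apply]
    | succ m =>
      have h0 : eps q = 0 := hq.eps_zero (by omega)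
      rw [lead h0 hA]
      intro he
      exact Eh_ne m (lq q A) (Hm_lq hq A) hA0 (kap_inj he)

end Pool.Agent.J4H49.MW
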